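import Mathlib
import Pool.Agent.H376R2.MR.Main

set_option autoImplicit false

/-!
# Products of `k` consecutive values of the Liouville function: both signs, uniformly in `k`

Uses the theorem `Pool.Agent.H376R2.MR.mr0` of the starting files (project of helper376): the
Liouville function changes its value between `n` and `n + 1` for a positive proportion of the `n ≤ X`,
for all large `X`.
-/

namespace Pool.Agent.Results.MP_a14ce1_nt.BothSignsAllLengths

open Finset Pool.Agent.H376R2.MR

/-- the product of `k` consecutive values of the Liouville function -/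
def P (k n : ℕ) : ℤ := ∏ j ∈ range k, lam (n + j)

lemma lam_sq (n : ℕ) : lam n = 1 ∨ lam n = -1 := by
  unfold lam
  exact neg_one_pow_eq_or ℤ _

lemma lam_mul' {m n : ℕ} (hm : m ≠ 0) (hn : n ≠ 0) : lam (m * n) = lam m * lam n := by
  unfold lam
  rw [ArithmeticFunction.cardFactors_mul hm hn, pow_add]

lemma P_pm (k n : ℕ) : P k n = 1 ∨ P k n = -1 := by
  unfold P lam
  rw [prod_pow_eq_pow_sum]
  exact neg_one_pow_eq_or ℤ _

lemma P_step (k n : ℕ) : P k (n + 1) * lam n = P k n * lam (n + k) := by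
  unfold P
  rw [← prod_range_succ (fun j => lam (n + j)) k, prod_range_succ' (fun j => lam (n + j)) k]
  congr 1
  apply prod_congr rfl
  intro j _
  congr 1
  omega

lemma chg_le (k N : ℕ) (hk : 1 ≤ k) (hN : 1 ≤ N) (σ : ℤ) (hσ : σ = 1 ∨ σ = -1) :
    chg ((N - 1) / k) ≤ 2 * ((Icc 1 N).filter (fun n => P k n = σ)).card := by
  set A := (Icc 1 N).filter (fun n => P k n = σ) with hA
  set T := (Icc 1 ((N - 1) / k)).filter (fun m => lam m ≠ lam (m + 1)) with hT
  have h1 : T.image (fun m => k * m) ⊆ A ∪ A.image (fun n => n - 1) := by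
    intro n hn
    rw [mem_image] at hn
    obtain ⟨m, hm, rfl⟩ := hn
    rw [hT, mem_filter, mem_Icc] at hm
    obtain ⟨⟨hm1, hm2⟩, hne⟩ := hm
    have hkm : k * m ≤ N - 1 := by
      have := Nat.mul_le_mul_left k hm2
      exact this.trans (Nat.mul_div_le _ _)
    have hkm1 : 1 ≤ k * m := Nat.mul_pos hk hm1
    rw [mem_union, mem_image]
    by_contra hcon
    push Not at hcon
    obtain ⟨hc1, hc2⟩ := hcon
    have e1 : P k (k * m) ≠ σ := by
      intro h
      exact hc1 (by rw [hA, mem_filter, mem_Icc]; exact ⟨⟨hkm1, by omega⟩, h⟩)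
    have e2 : P k (k * m + 1) ≠ σ := by
      intro h
      exact hc2 (k * m + 1) (by rw [hA, mem_filter, mem_Icc]; exact ⟨⟨by omega, by omega⟩, h⟩) (by omega)
    have e3 : P k (k * m + 1) = P k (k * m) := by
      rcases hσ with rfl | rfl <;> rcases P_pm k (k * m) with h | h <;>
        rcases P_pm k (k * m + 1) with h' | h' <;> simp_all
    have e4 := P_step k (k * m)
    rw [e3] at e4
    have e5 : lam (k * m) = lam (k * m + k) := by
      have h0 : P k (k * m) ≠ 0 := by rcases P_pm k (k * m) with h | h <;> rw [h] <;> norm_num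
      exact mul_left_cancel₀ h0 e4
    rw [show k * m + k = k * (m + 1) by ring, lam_mul' (by omega) (by omega),
      lam_mul' (by omega) (by omega)] at e5
    have e6 : lam k ≠ 0 := by rcases lam_sq k with h | h <;> rw [h] <;> norm_num
    exact hne (mul_left_cancel₀ e6 e5)
  have h2 : T.card ≤ (A ∪ A.image (fun n => n - 1)).card := by
    rw [← card_image_of_injective T (f := fun m => k * m) (fun a b h => Nat.eq_of_mul_eq_mul_left hk h)]
    exact card_le_card h1
  have h3 : chg ((N - 1) / k) = T.card := rfl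
  rw [h3]
  refine h2.trans ((card_union_le _ _).trans ?_)
  have := card_image_le (s := A) (f := fun n => n - 1)
  omega

/-- There is `c > 0` such that for all `N` and all `1 ≤ k ≤ c N` both values `±1` are taken at least
`c N / k` times by the product of the `k` values of the Liouville function at `n, ..., n + k - 1`,
`1 ≤ n ≤ N`; hence Chowla's sum over `k` consecutive values is at most `(1 - 2 c / k) N` in absolute
value. -/
theorem result : ∃ c : ℝ, 0 < c ∧ ∀ N k : ℕ, 1 ≤ k → (k : ℝ) ≤ c * N →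
    (∀ σ : ℤ, (σ = 1 ∨ σ = -1) → c * N / k ≤ (((Icc 1 N).filter (fun n =>
      ∏ j ∈ range k, (-1 : ℤ) ^ ArithmeticFunction.cardFactors (n + j) = σ)).card : ℝ)) ∧
    |∑ n ∈ Icc 1 N, ∏ j ∈ range k, (-1 : ℝ) ^ ArithmeticFunction.cardFactors (n + j)| ≤
      (1 - 2 * c / k) * N := by
  obtain ⟨ε, hε, X₀, hX⟩ := mr0
  set c : ℝ := min (ε / 8) (1 / (4 * (X₀ + 1))) with hc
  have hc0 : 0 < c := by rw [hc]; positivity
  have hc1 : c ≤ ε / 8 := min_le_left _ _
  have hc2 : c ≤ 1 / (4 * (X₀ + 1)) := min_le_right _ _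
  refine ⟨c, hc0, fun N k hk hkN => ?_⟩
  have hkr : (1 : ℝ) ≤ k := by exact_mod_cast hk
  have hk0 : (0 : ℝ) < k := by linarith
  have hX0 : (0 : ℝ) ≤ X₀ := Nat.cast_nonneg _
  have hNr : 4 * ((X₀ : ℝ) + 1) * k ≤ N := by
    have h1 : (k : ℝ) ≤ 1 / (4 * (X₀ + 1)) * N :=
      hkN.trans (mul_le_mul_of_nonneg_right hc2 (Nat.cast_nonneg _))
    rw [one_div, inv_mul_eq_div, le_div_iff₀ (by positivity)] at h1
    linarith
  have hNn : 4 * (X₀ + 1) * k ≤ N := by exact_mod_cast hNr
  have hN1 : 1 ≤ N := le_trans (by nlinarith) hNn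
  have hNp : (0 : ℝ) < N := by exact_mod_cast hN1
  -- the number of sign changes
  have hXk : X₀ ≤ (N - 1) / k := by
    rw [Nat.le_div_iff_mul_le hk]
    have : X₀ * k + 1 ≤ N := by nlinarith
    omega
  have hdiv : (N : ℝ) / (4 * k) ≤ (((N - 1) / k : ℕ) : ℝ) := by
    have h1 : (N - 1 : ℕ) < k * ((N - 1) / k + 1) := by
      have := Nat.lt_mul_div_succ (N - 1) hk
      exact this
    have h2 : N ≤ k * ((N - 1) / k + 1) := by omega
    have h3 : (N : ℝ) ≤ k * ((((N - 1) / k : ℕ) : ℝ) + 1) := by exact_mod_cast h2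
    rw [div_le_iff₀ (by positivity)]
    nlinarith
  have key : ∀ σ : ℤ, (σ = 1 ∨ σ = -1) →
      c * N / k ≤ (((Icc 1 N).filter (fun n => P k n = σ)).card : ℝ) := by
    intro σ hσ
    have h1 := chg_le k N hk hN1 σ hσ
    have h2 := hX _ hXk
    have h3 : (chg ((N - 1) / k) : ℝ) ≤ 2 * (((Icc 1 N).filter (fun n => P k n = σ)).card : ℝ) := by
      exact_mod_cast h1
    have h4 : ε * ((N : ℝ) / (4 * k)) ≤ ε * (((N - 1) / k : ℕ) : ℝ) :=
      mul_le_mul_of_nonneg_left hdiv hε.le
    have h5 : c * N / k ≤ ε / 8 * N / k := by gcongr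
    have h6 : ε / 8 * N / k = ε * ((N : ℝ) / (4 * k)) / 2 := by field_simp; ring
    linarith
  refine ⟨key, ?_⟩
  have e1 : ∑ n ∈ Icc 1 N, ∏ j ∈ range k, (-1 : ℝ) ^ ArithmeticFunction.cardFactors (n + j) =
      ∑ n ∈ Icc 1 N, ((P k n : ℤ) : ℝ) := by
    apply sum_congr rfl
    intro n _
    unfold P lam
    push_cast
    rfl
  have e2 : ∑ n ∈ Icc 1 N, ((P k n : ℤ) : ℝ) = (((Icc 1 N).filter (fun n => P k n = 1)).card : ℝ) -
      (((Icc 1 N).filter (fun n => P k n = -1)).card : ℝ) := by
    have h7 : ∀ n ∈ Icc 1 N, ((P k n : ℤ) : ℝ) = (if P k n = 1 then (1 : ℝ) else 0) -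
        (if P k n = -1 then (1 : ℝ) else 0) := by
      intro n _
      rcases P_pm k n with h | h
      · rw [h]; norm_num
      · rw [h]; norm_num
    rw [Finset.sum_congr rfl h7, Finset.sum_sub_distrib, Finset.sum_boole, Finset.sum_boole]
  have e3 : (((Icc 1 N).filter (fun n => P k n = 1)).card : ℝ) +
      (((Icc 1 N).filter (fun n => P k n = -1)).card : ℝ) = N := by
    have h4 := Finset.card_filter_add_card_filter_not (s := Icc 1 N) (fun n => P k n = 1)
    have h5 : (Icc 1 N).filter (fun n => ¬ P k n = 1) = (Icc 1 N).filter (fun n => P k n = -1) := by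
      ext n
      simp only [mem_filter]
      constructor
      · rintro ⟨a, b⟩
        exact ⟨a, (P_pm k n).resolve_left b⟩
      · rintro ⟨a, b⟩
        refine ⟨a, ?_⟩
        rw [b]; norm_num
    rw [h5, Nat.card_Icc] at h4
    have h6 : N + 1 - 1 = N := by omega
    rw [h6] at h4
    exact_mod_cast h4
  have k1 := key 1 (Or.inl rfl)
  have k2 := key (-1) (Or.inr rfl)
  rw [e1, e2, abs_le]
  have e4 : (1 - 2 * c / k) * N = N - 2 * (c * N / k) := by ring
  rw [e4]
  constructor <;> linarith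

end Pool.Agent.Results.MP_a14ce1_nt.BothSignsAllLengths
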