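import Pool.Agent.H220M.Fin4
import Pool.Agent.H220M.B1
import Pool.Agent.H220M.B2
import Pool.Agent.H220M.B4
import Pool.Agent.H220M.P1
import Pool.Agent.H220M.P2
import Pool.Agent.H220M.P3

/-!
# Products of consecutive values: all but few modifications at finitely many primes

For all `H` and `η > 0` there is `L` such that for every finite set `Q` of primes with
`∑_{q ∈ Q} 1/q ≥ L`, at every scale `x ≥ x₀(Q)`, for every completely multiplicative `g` with values
`±1` and every bounded weight `w`: all but `η 2^|Q|` of the `2^|Q|` completely multiplicative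
functions `f` with values `±1` which agree with `g` off `Q` satisfy
`|∑_{n ≤ x} w(n) ∏ f(a_i n + b_i)| ≤ η x` for all systems of at most `H` pairwise non-proportional
linear forms with `1 ≤ a_i ≤ H`, `0 ≤ b_i ≤ H` at the same time; in particular
`|∑_{n ≤ x} f(n) ⋯ f(n+k-1)| ≤ η x` for all `k ≤ H`.
-/

set_option autoImplicit false

namespace Pool.Agent.Results.MP_a14ce1_nt.FiniteModifications

open Finset Pool.Agent.H220M

theorem result (H : ℕ) (η : ℝ) (hη : 0 < η) :
    ∃ L : ℝ, ∀ Q : Finset ℕ, (∀ q ∈ Q, q.Prime) → L ≤ ∑ q ∈ Q, (1 : ℝ) / q →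
      ∃ x₀ : ℕ, ∀ g : ℕ →*₀ ℤ, (∀ p : ℕ, p.Prime → g p = 1 ∨ g p = -1) →
        (family g Q).Finite ∧ (family g Q).ncard = 2 ^ Q.card ∧
        ∀ w : ℕ → ℝ, (∀ m, |w m| ≤ 1) → ∀ x ≥ x₀,
          ({f ∈ family g Q | ∃ (k : ℕ) (a b : Fin k → ℕ), Adm H k a b ∧
            η * x < |∑ n ∈ Icc 1 x, w n * ∏ i, ((f (a i * n + b i) : ℤ) : ℝ)|}.ncard : ℝ)
            ≤ η * 2 ^ Q.card :=
  finalB (tP3 (tP1 tB1 tB2 tB4) tP2) H η hη

end Pool.Agent.Results.MP_a14ce1_nt.FiniteModifications
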