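import Pool.Agent.W588.Global

/-!
# MP_a14ce1_nt: consecutive Chowla sums form a contraction

`L n = (-1) ^ Ω(n)` is the Liouville function.
-/

set_option autoImplicit false

namespace Pool.Agent.Results.MP_a14ce1_nt.ZContraction

open Finset Pool.Agent.W588

/-- the Liouville function, with real values -/
noncomputable def L (n : ℕ) : ℝ := (-1 : ℝ) ^ ArithmeticFunction.cardFactors n

/-- the sum over `1 ≤ n ≤ N` of `L(n) L(n+1) ⋯ L(n+k-1)` -/
noncomputable def S (k N : ℕ) : ℝ := ∑ n ∈ Icc 1 N, ∏ i ∈ range k, L (n + i)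

lemma lamR_eq : lamR = L := rfl

lemma SK_eq (k N : ℕ) : SK k N = S k N := rfl

/-- the exceptional set for one linear form -/
lemma exc {c : ℕ} (hc : 0 < c) (d : ℕ) {ε : ℝ} (hε : 0 < ε) :
    ∃ H₀ : ℕ, ∀ H : ℕ, H₀ ≤ H → ∃ X₀ : ℕ, ∀ X : ℕ, X₀ ≤ X → ∃ E : Finset ℕ,
      (E.card : ℝ) ≤ ε * X ∧ ∀ n ∈ Icc 1 X, n ∉ E →
        |∑ m ∈ Ioc n (n + H), L (c * m + d)| ≤ ε * H := by
  obtain ⟨H₀, h⟩ := form_short hc d hε
  refine ⟨H₀, fun H hH => ?_⟩
  obtain ⟨X₀, h'⟩ := h H hH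
  refine ⟨X₀, fun X hX => ⟨_, h' X hX, fun n hn hE => ?_⟩⟩
  rw [mem_filter, not_and] at hE
  exact not_lt.1 (hE hn)

theorem result :
    -- almost all short intervals, two linear forms, an arbitrary bounded weight
    (∀ c d c' d' : ℕ, 0 < c → 0 < c' → ∀ ε : ℝ, 0 < ε →
      ∃ H₀ : ℕ, ∀ H : ℕ, H₀ ≤ H → ∃ X₀ : ℕ, ∀ X : ℕ, X₀ ≤ X → ∃ E : Finset ℕ,
        (E.card : ℝ) ≤ ε * X ∧ ∀ n ∈ Icc 1 X, n ∉ E → ∀ u : ℕ → ℝ, (∀ m, |u m| ≤ 1) →
          ∀ x y x' y' : ℝ,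
            |x * x' * (∑ m ∈ Ioc n (n + H), u m) +
              x * y' * (∑ m ∈ Ioc n (n + H), u m * L (c' * m + d')) +
              y * x' * (∑ m ∈ Ioc n (n + H), u m * L (c * m + d)) +
              y * y' * (∑ m ∈ Ioc n (n + H), u m * L (c * m + d) * L (c' * m + d'))| ≤
            (1 + ε) * √(x ^ 2 + y ^ 2) * √(x' ^ 2 + y' ^ 2) * H) ∧
    -- almost all short intervals, products of consecutive values, all lengths at once
    (∀ ε : ℝ, 0 < ε → ∃ H₀ : ℕ, ∀ H : ℕ, H₀ ≤ H → ∃ X₀ : ℕ, ∀ X : ℕ, X₀ ≤ X → ∃ E : Finset ℕ,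
        (E.card : ℝ) ≤ ε * X ∧ ∀ n ∈ Icc 1 X, n ∉ E → ∀ k : ℕ,
          (∑ m ∈ Ioc n (n + H), ∏ i ∈ range k, L (m + i)) ^ 2 +
            (∑ m ∈ Ioc n (n + H), ∏ i ∈ range (k + 1), L (m + i)) ^ 2 ≤ (1 + ε) * (H : ℝ) ^ 2) ∧
    -- three consecutive sums
    (∀ ε : ℝ, 0 < ε → ∃ N₀ : ℕ, ∀ N : ℕ, N₀ ≤ N → ∀ k : ℕ, k + 1 ≤ N → ∀ x y x' y' : ℝ,
      |x * x' * S k N + (x * y' + y * x') * S (k + 1) N + y * y' * S (k + 2) N| ≤
        (1 + ε) * √(x ^ 2 + y ^ 2) * √(x' ^ 2 + y' ^ 2) * N) ∧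
    -- two consecutive sums
    (∀ ε : ℝ, 0 < ε → ∃ N₀ : ℕ, ∀ N : ℕ, N₀ ≤ N → ∀ k : ℕ, k + 1 ≤ N →
      S k N ^ 2 + S (k + 1) N ^ 2 ≤ (1 + ε) * (N : ℝ) ^ 2) ∧
    -- the sums for `k = 2` and `k = 3`
    (∀ ε : ℝ, 0 < ε → ∃ N₀ : ℕ, ∀ N : ℕ, N₀ ≤ N →
      S 2 N ^ 2 + N * |S 3 N| ≤ (1 + ε) * (N : ℝ) ^ 2) ∧
    -- at least half of the sums are at most `(1 / √2 + ε) N`
    (∀ ε : ℝ, 0 < ε → ∃ N₀ : ℕ, ∀ N : ℕ, N₀ ≤ N → ∀ K : ℕ, K ≤ N →
      2 * ((Icc 1 K).filter (fun k => (1 / √2 + ε) * N ≤ |S k N|)).card ≤ K) := by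
  refine ⟨?_, ?_, fun ε hε => global hε, fun ε hε => global_sq hε, fun ε hε => global_three hε,
    fun ε hε => count hε⟩
  · intro c d c' d' hc hc' ε hε
    obtain ⟨H₁, h₁⟩ := exc hc d (ε := ε / 2) (by positivity)
    obtain ⟨H₂, h₂⟩ := exc hc' d' (ε := ε / 2) (by positivity)
    refine ⟨max H₁ H₂, fun H hH => ?_⟩
    obtain ⟨X₁, k₁⟩ := h₁ H ((le_max_left _ _).trans hH)
    obtain ⟨X₂, k₂⟩ := h₂ H ((le_max_right _ _).trans hH)
    refine ⟨max X₁ X₂, fun X hX => ?_⟩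
    obtain ⟨E₁, hE₁, j₁⟩ := k₁ X ((le_max_left _ _).trans hX)
    obtain ⟨E₂, hE₂, j₂⟩ := k₂ X ((le_max_right _ _).trans hX)
    refine ⟨E₁ ∪ E₂, ?_, fun n hn hE u hu x y x' y' => ?_⟩
    · have h3 : ((E₁ ∪ E₂).card : ℝ) ≤ E₁.card + E₂.card := by
        exact_mod_cast card_union_le E₁ E₂
      linarith
    · rw [mem_union, not_or] at hE
      have hH0 : (0 : ℝ) ≤ H := Nat.cast_nonneg _
      have a1 := j₁ n hn hE.1
      have a2 := j₂ n hn hE.2
      have h4 : ε / 2 * (H : ℝ) ≤ ε * H := by nlinarith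
      exact contraction hu (fun m => lamR_sq (c * m + d)) (fun m => lamR_sq (c' * m + d')) hε.le
        (by simp) (a1.trans h4) (a2.trans h4) x y x' y'
  · intro ε hε
    set δ : ℝ := min (ε / 6) 1 with hδ
    have hδ0 : 0 < δ := by positivity
    have hδ1 : δ ≤ 1 := min_le_right _ _
    have hδ3 : δ ≤ ε / 6 := min_le_left _ _
    obtain ⟨H₁, h₁⟩ := exc one_pos 0 hδ0
    refine ⟨max H₁ ⌈16 / ε⌉₊ + 1, fun H hH => ?_⟩
    obtain ⟨X₁, k₁⟩ := h₁ H (by omega)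
    refine ⟨X₁, fun X hX => ?_⟩
    obtain ⟨E, hE, j⟩ := k₁ X hX
    have hX0 : (0 : ℝ) ≤ X := Nat.cast_nonneg _
    refine ⟨E, hE.trans (by nlinarith), fun n hn hnE k => ?_⟩
    have hH0 : (0 : ℝ) < H := by
      have : 0 < H := by omega
      exact_mod_cast this
    have hH1 : (1 : ℝ) ≤ H := by
      have : 1 ≤ H := by omega
      exact_mod_cast this
    have hH16 : 16 ≤ ε * H := by
      have h1 : 16 / ε ≤ H := (Nat.le_ceil _).trans (by
        exact_mod_cast (by omega : ⌈16 / ε⌉₊ ≤ H))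
      rw [div_le_iff₀ hε] at h1
      linarith
    have hj := j n hn hnE
    simp only [one_mul, add_zero] at hj
    set A := ∑ m ∈ Ioc n (n + H), ∏ i ∈ range k, L (m + 1 + i) with hA
    set C := ∑ m ∈ Ioc n (n + H), ∏ i ∈ range k, L (m + i) with hC
    set B := ∑ m ∈ Ioc n (n + H), ∏ i ∈ range (k + 1), L (m + i) with hB
    have hB' : ∑ m ∈ Ioc n (n + H), (∏ i ∈ range k, L (m + 1 + i)) * L m = B := by
      rw [hB]
      refine sum_congr rfl fun m _ => ?_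
      rw [prod_range_succ', add_zero]
      congr 1
      refine prod_congr rfl fun i _ => ?_
      rw [show m + (i + 1) = m + 1 + i by ring]
    have hc := contraction (s := Ioc n (n + H)) (u := fun m => ∏ i ∈ range k, L (m + 1 + i))
      (v := L) (v' := L) (fun m => (prod_abs k (m + 1)).le) lamR_sq lamR_sq (M := H)
      (ε := δ) hδ0.le (by simp) hj hj A B 1 0
    rw [hB', ← hA] at hc
    have h3 : √((1 : ℝ) ^ 2 + 0 ^ 2) = 1 := by simp
    have hc' : |A * A + B * B| ≤ (1 + δ) * H * √(A ^ 2 + B ^ 2) := by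
      refine le_of_eq_of_le ?_ (hc.trans_eq ?_)
      · congr 1
        ring
      · rw [h3]
        ring
    have h4 := bessel (R := (1 + δ) * H) (by positivity) hc'
    have hAH : |A| ≤ H := by
      rw [hA]
      refine (abs_sum_le_sum_abs _ _).trans ?_
      have h5 : ∀ m ∈ Ioc n (n + H), |∏ i ∈ range k, L (m + 1 + i)| = 1 :=
        fun m _ => prod_abs k (m + 1)
      rw [sum_congr rfl h5]
      simp
    have hCA : |C - A| ≤ 2 := by
      have h5 : ∀ j : ℕ, ∑ m ∈ Ioc n (n + j), ∏ i ∈ range k, L (m + i) -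
          ∑ m ∈ Ioc n (n + j), ∏ i ∈ range k, L (m + 1 + i) =
          (if j = 0 then 0 else ∏ i ∈ range k, L (n + 1 + i)) -
            (if j = 0 then 0 else ∏ i ∈ range k, L (n + j + 1 + i)) := by
        intro j
        induction j with
        | zero => simp
        | succ j ih =>
          rw [show n + (j + 1) = n + j + 1 by ring, sum_Ioc_succ_top (by omega),
            sum_Ioc_succ_top (by omega)]
          rw [if_neg (by omega), if_neg (by omega)]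
          by_cases hj0 : j = 0
          · subst hj0
            simp
          · rw [if_neg hj0, if_neg hj0] at ih
            linarith
      rw [hC, hA, h5 H, if_neg (by omega), if_neg (by omega)]
      have h6 := abs_le.1 (prod_abs k (n + 1)).le
      have h7 := abs_le.1 (prod_abs k (n + H + 1)).le
      rw [lamR_eq] at h6 h7
      rw [abs_le]
      constructor <;> linarith [h6.1, h6.2, h7.1, h7.2]
    have hC2 : C ^ 2 ≤ A ^ 2 + 8 * H := by
      have h5 : C ^ 2 - A ^ 2 = (C - A) * (C - A) + 2 * A * (C - A) := by ring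
      have h6 : (C - A) * (C - A) ≤ 2 * 2 := by
        rw [← abs_mul_abs_self]
        gcongr
      have h7 : 2 * A * (C - A) ≤ 2 * H * 2 := by
        calc 2 * A * (C - A) ≤ |2 * A * (C - A)| := le_abs_self _
          _ = 2 * |A| * |C - A| := by rw [abs_mul, abs_mul, abs_two]
          _ ≤ 2 * H * 2 := by gcongr
      nlinarith
    have h8 : ((1 + δ) * (H : ℝ)) ^ 2 ≤ (1 + ε / 2) * (H : ℝ) ^ 2 := by
      rw [mul_pow]
      have h5 : (1 + δ) ^ 2 ≤ 1 + ε / 2 := by nlinarith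
      gcongr
    have h9 : 8 * (H : ℝ) ≤ ε / 2 * (H : ℝ) ^ 2 := by nlinarith
    linarith

end Pool.Agent.Results.MP_a14ce1_nt.ZContraction
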