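import Mathlib

/-!
Explicit bounds for the sums of products of shifted Liouville values, at all scales: for every
finite set `H` of shifts containing an even and an odd number, with `M` the larger of the numbers of
even and of odd elements, the Chowla sum of `H` is at least `-(2M-1)/(2M+1) N - O_H(log N)`, and for
an odd number of shifts at most `(2M-1)/(2M+1) N + O_H(log N)`.
-/

set_option autoImplicit false

namespace Pool.Agent.Results.MP_a14ce1_nt.ZExplicitBounds

open Finset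

/-- products of a symmetric array of signs -/
lemma prod_symm (g : ℕ → ℕ → ℤ) (hs : ∀ a b, g a b = g b a) (h1 : ∀ a b, g a b * g a b = 1)
    (H : Finset ℕ) : ∏ a ∈ H, ∏ b ∈ H, g a b = ∏ a ∈ H, g a a := by
  classical
  induction H using Finset.induction_on with
  | empty => simp
  | insert x s hx ih =>
    rw [Finset.prod_insert hx, Finset.prod_insert hx, Finset.prod_insert hx]
    have e : ∏ a ∈ s, ∏ b ∈ insert x s, g a b = (∏ a ∈ s, g x a) * ∏ a ∈ s, ∏ b ∈ s, g a b := by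
      rw [← Finset.prod_mul_distrib]
      refine Finset.prod_congr rfl fun a _ => ?_
      rw [Finset.prod_insert hx, hs a x]
    rw [e, ih]
    have e2 : (∏ a ∈ s, g x a) * (∏ a ∈ s, g x a) = 1 := by
      rw [← Finset.prod_mul_distrib]
      exact Finset.prod_eq_one fun a _ => h1 x a
    linear_combination (g x x * ∏ a ∈ s, g a a) * e2

/-- the Liouville function -/
def lam (n : ℕ) : ℤ := (-1) ^ ArithmeticFunction.cardFactors n

lemma lam_pm (n : ℕ) : lam n = 1 ∨ lam n = -1 := neg_one_pow_eq_or ℤ _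

lemma lam_sq (n : ℕ) : lam n * lam n = 1 := by rcases lam_pm n with h | h <;> rw [h] <;> norm_num

lemma lam_two_mul (n : ℕ) (hn : n ≠ 0) : lam (2 * n) = -lam n := by
  unfold lam
  rw [ArithmeticFunction.cardFactors_mul two_ne_zero hn,
    ArithmeticFunction.cardFactors_apply_prime Nat.prime_two, pow_add]
  ring

/-- the product over the shifts in `H` -/
def P (H : Finset ℕ) (n : ℕ) : ℤ := ∏ h ∈ H, lam (n + h)

lemma P_pm (H : Finset ℕ) (n : ℕ) : P H n = 1 ∨ P H n = -1 := by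
  unfold P lam
  rw [Finset.prod_pow_eq_pow_sum]
  exact neg_one_pow_eq_or ℤ _

lemma P_rel (H : Finset ℕ) (n : ℕ) (hn : 1 ≤ n) :
    ∏ a ∈ H, P H (2 * n + a) = (-1) ^ H.card * P H n := by
  unfold P
  rw [prod_symm (fun a b => lam (2 * n + a + b)) (fun a b => by
    show lam (2 * n + a + b) = lam (2 * n + b + a)
    rw [add_right_comm]) (fun a b => lam_sq _) H, ← Finset.prod_const,
    ← Finset.prod_mul_distrib]
  refine Finset.prod_congr rfl fun a _ => ?_
  have : 2 * n + a + a = 2 * (n + a) := by ring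
  show lam (2 * n + a + a) = -1 * lam (n + a)
  rw [this, lam_two_mul _ (by omega)]
  ring

section abs

variable (Q : ℕ → ℤ) (hQ : ∀ n, Q n = 1 ∨ Q n = -1) (H : Finset ℕ)
  (hrel : ∀ n, 1 ≤ n → ∏ a ∈ H, Q (2 * n + a) = -Q n)

/-- number of even elements -/
def ev (H : Finset ℕ) : ℕ := (H.filter (fun a => Even a)).card
/-- number of odd elements -/
def od (H : Finset ℕ) : ℕ := (H.filter (fun a => ¬ Even a)).card

/-- weights -/
noncomputable def wt (H : Finset ℕ) (a : ℕ) : ℝ := if Even a then 1 / (ev H : ℝ) else 1 / (od H : ℝ)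

/-- partial sums -/
noncomputable def S (Q : ℕ → ℤ) (N : ℕ) : ℝ := ∑ n ∈ Icc 1 N, (Q n : ℝ)

lemma wt_even_sum (H : Finset ℕ) (he : 0 < ev H) :
    ∑ a ∈ H.filter (fun a => Even a), wt H a = 1 := by
  have h1 : ∀ a ∈ H.filter (fun a => Even a), wt H a = 1 / (ev H : ℝ) := by
    intro a ha
    unfold wt
    rw [if_pos (mem_filter.1 ha).2]
  rw [Finset.sum_congr rfl h1, Finset.sum_const, nsmul_eq_mul]
  have : ((H.filter (fun a => Even a)).card : ℝ) = ev H := rfl
  rw [this]
  have h0 : (ev H : ℝ) ≠ 0 := by positivity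
  field_simp

lemma wt_odd_sum (H : Finset ℕ) (ho : 0 < od H) :
    ∑ a ∈ H.filter (fun a => ¬ Even a), wt H a = 1 := by
  have h1 : ∀ a ∈ H.filter (fun a => ¬ Even a), wt H a = 1 / (od H : ℝ) := by
    intro a ha
    unfold wt
    rw [if_neg (mem_filter.1 ha).2]
  rw [Finset.sum_congr rfl h1, Finset.sum_const, nsmul_eq_mul]
  have : ((H.filter (fun a => ¬ Even a)).card : ℝ) = od H := rfl
  rw [this]
  have h0 : (od H : ℝ) ≠ 0 := by positivity
  field_simp

lemma wt_sum (H : Finset ℕ) (he : 0 < ev H) (ho : 0 < od H) : ∑ a ∈ H, wt H a = 2 := by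
  rw [← Finset.sum_filter_add_sum_filter_not H (fun a => Even a), wt_even_sum H he,
    wt_odd_sum H ho]
  norm_num

lemma wt_ge (H : Finset ℕ) (he : 0 < ev H) (ho : 0 < od H) (a : ℕ) :
    1 / (max (ev H) (od H) : ℝ) ≤ wt H a := by
  have he' : (0 : ℝ) < ev H := by exact_mod_cast he
  have ho' : (0 : ℝ) < od H := by exact_mod_cast ho
  unfold wt
  split_ifs
  · exact one_div_le_one_div_of_le he' (le_max_left _ _)
  · exact one_div_le_one_div_of_le ho' (le_max_right _ _)

include hQ hrel in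
/-- the local inequality -/
lemma pointwise (he : 0 < ev H) (ho : 0 < od H) (n : ℕ) (hn : 1 ≤ n) :
    ∑ a ∈ H, wt H a * (Q (2 * n + a) : ℝ) + 1 / (max (ev H) (od H) : ℝ) * (Q n : ℝ) ≤
      2 - 1 / (max (ev H) (od H) : ℝ) := by
  set w : ℝ := 1 / (max (ev H) (od H) : ℝ) with hw
  have hw0 : 0 ≤ w := by positivity
  have hle : ∀ a ∈ H, wt H a * (Q (2 * n + a) : ℝ) ≤ wt H a := by
    intro a _
    have h0 : 0 ≤ wt H a := hw0.trans (wt_ge H he ho a)
    rcases hQ (2 * n + a) with h | h <;> rw [h] <;> push_cast <;> linarith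
  rcases hQ n with h | h
  · have hex : ∃ a ∈ H, Q (2 * n + a) = -1 := by
      by_contra hcon
      push Not at hcon
      have h1 : ∏ a ∈ H, Q (2 * n + a) = 1 :=
        Finset.prod_eq_one fun a ha => (hQ _).resolve_right (hcon a ha)
      rw [hrel n hn, h] at h1
      norm_num at h1
    obtain ⟨a₀, ha₀, hqa⟩ := hex
    have h2 : ∑ a ∈ H, wt H a * (Q (2 * n + a) : ℝ) ≤ ∑ a ∈ H, wt H a - 2 * wt H a₀ := by
      rw [← Finset.add_sum_erase H _ ha₀, ← Finset.add_sum_erase H (fun a => wt H a) ha₀, hqa]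
      have h3 : ∑ a ∈ H.erase a₀, wt H a * (Q (2 * n + a) : ℝ) ≤ ∑ a ∈ H.erase a₀, wt H a :=
        Finset.sum_le_sum fun a ha => hle a (Finset.mem_of_mem_erase ha)
      push_cast
      linarith
    rw [wt_sum H he ho] at h2
    have h4 := wt_ge H he ho a₀
    rw [h]
    push_cast
    linarith
  · have h2 : ∑ a ∈ H, wt H a * (Q (2 * n + a) : ℝ) ≤ ∑ a ∈ H, wt H a := Finset.sum_le_sum hle
    rw [wt_sum H he ho] at h2
    rw [h]
    push_cast
    linarith

/-- block sums with a shift -/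
noncomputable def F (Q : ℕ → ℤ) (m a : ℕ) : ℝ := ∑ n ∈ Ioc m (2 * m), (Q (2 * n + a) : ℝ)

lemma sum_shift (f : ℕ → ℝ) (m : ℕ) :
    ∑ n ∈ Ioc m (2 * m), f (n + 1) = ∑ n ∈ Ioc m (2 * m), f n + f (2 * m + 1) - f (m + 1) := by
  have h : ∀ j : ℕ, ∑ n ∈ Ioc m (m + j), f (n + 1) =
      ∑ n ∈ Ioc m (m + j), f n + f (m + j + 1) - f (m + 1) := by
    intro j
    induction j with
    | zero => simp
    | succ j ih =>
      rw [← add_assoc, Finset.sum_Ioc_succ_top (by omega), Finset.sum_Ioc_succ_top (by omega), ih]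
      ring
  have := h m
  rw [← two_mul] at this
  exact this

include hQ in
lemma q_abs (n : ℕ) : (Q n : ℝ) ≤ 1 ∧ -1 ≤ (Q n : ℝ) := by
  rcases hQ n with h | h <;> rw [h] <;> norm_num

include hQ in
lemma F_step (m a : ℕ) : F Q m a - 2 ≤ F Q m (a + 2) := by
  have h := sum_shift (fun n => (Q (2 * n + a) : ℝ)) m
  have e : F Q m (a + 2) = ∑ n ∈ Ioc m (2 * m), (Q (2 * (n + 1) + a) : ℝ) := by
    unfold F
    refine Finset.sum_congr rfl fun n _ => ?_
    congr 2
    ring
  rw [e]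
  have h1 := (q_abs Q hQ (2 * (2 * m + 1) + a)).2
  have h2 := (q_abs Q hQ (2 * (m + 1) + a)).1
  have h3 : F Q m a = ∑ n ∈ Ioc m (2 * m), (Q (2 * n + a) : ℝ) := rfl
  rw [h, h3]
  linarith

include hQ in
lemma F_even (m j : ℕ) : F Q m 0 - 2 * j ≤ F Q m (2 * j) := by
  induction j with
  | zero => simp
  | succ j ih =>
    have := F_step Q hQ m (2 * j)
    have e : 2 * (j + 1) = 2 * j + 2 := by ring
    rw [e]
    push_cast
    linarith

include hQ in
lemma F_odd (m j : ℕ) : F Q m 1 - 2 * j ≤ F Q m (2 * j + 1) := by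
  induction j with
  | zero => simp
  | succ j ih =>
    have := F_step Q hQ m (2 * j + 1)
    have e : 2 * (j + 1) + 1 = 2 * j + 1 + 2 := by ring
    rw [e]
    push_cast
    linarith

lemma pairs (f : ℕ → ℝ) (m : ℕ) :
    ∑ n ∈ Ioc m (2 * m), (f (2 * n) + f (2 * n + 1)) =
      ∑ n ∈ Ioc (2 * m) (4 * m), f n + f (4 * m + 1) - f (2 * m + 1) := by
  have h : ∀ j : ℕ, ∑ n ∈ Ioc m (m + j), (f (2 * n) + f (2 * n + 1)) =
      ∑ n ∈ Ioc (2 * m) (2 * m + 2 * j), f n + f (2 * m + 2 * j + 1) - f (2 * m + 1) := by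
    intro j
    induction j with
    | zero => simp
    | succ j ih =>
      rw [← add_assoc, Finset.sum_Ioc_succ_top (by omega), ih]
      have e : 2 * m + 2 * (j + 1) = 2 * m + 2 * j + 1 + 1 := by ring
      rw [e, Finset.sum_Ioc_succ_top (by omega), Finset.sum_Ioc_succ_top (by omega)]
      have e2 : 2 * (m + j + 1) = 2 * m + 2 * j + 1 + 1 := by ring
      rw [e2]
      ring
  have := h m
  have e3 : 2 * m + 2 * m = 4 * m := by ring
  rw [← two_mul, e3] at this
  exact this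

lemma S_split (Q : ℕ → ℤ) (a b : ℕ) (hab : a ≤ b) :
    S Q b = S Q a + ∑ n ∈ Ioc a b, (Q n : ℝ) := by
  unfold S
  have h1 : Icc 1 b = Icc 1 a ∪ Ioc a b := by
    ext x
    simp only [mem_Icc, mem_union, mem_Ioc]
    omega
  rw [h1, Finset.sum_union]
  rw [Finset.disjoint_left]
  intro x hx hy
  rw [mem_Icc] at hx
  rw [mem_Ioc] at hy
  omega

include hQ hrel in
/-- the recursion for the partial sums -/
lemma rec_ineq (he : 0 < ev H) (ho : 0 < od H) (D : ℕ) (hD : ∀ a ∈ H, a ≤ D) (m : ℕ) :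
    S Q (4 * m) ≤ (1 - 1 / (max (ev H) (od H) : ℝ)) * S Q (2 * m) +
      1 / (max (ev H) (od H) : ℝ) * S Q m + (2 - 1 / (max (ev H) (od H) : ℝ)) * m + (2 * D + 2) := by
  set w : ℝ := 1 / (max (ev H) (od H) : ℝ) with hw
  have hw0 : 0 ≤ w := by positivity
  -- sum of the local inequality
  have h1 : ∑ n ∈ Ioc m (2 * m), (∑ a ∈ H, wt H a * (Q (2 * n + a) : ℝ) + w * (Q n : ℝ)) ≤
      ∑ n ∈ Ioc m (2 * m), (2 - w) :=
    Finset.sum_le_sum fun n hn =>
      pointwise Q hQ H hrel he ho n (by have := (mem_Ioc.1 hn).1; omega)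
  rw [Finset.sum_const, Nat.card_Ioc, nsmul_eq_mul, Finset.sum_add_distrib,
    Finset.sum_comm, ← Finset.mul_sum] at h1
  have e1 : ((2 * m - m : ℕ) : ℝ) = m := by
    congr 1
    omega
  rw [e1] at h1
  have e2 : ∀ a ∈ H, ∑ n ∈ Ioc m (2 * m), wt H a * (Q (2 * n + a) : ℝ) = wt H a * F Q m a := by
    intro a _
    rw [F, Finset.mul_sum]
  rw [Finset.sum_congr rfl e2] at h1
  have h2 : F Q m 0 + F Q m 1 - 2 * D ≤ ∑ a ∈ H, wt H a * F Q m a := by
    rw [← Finset.sum_filter_add_sum_filter_not H (fun a => Even a)]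
    have h3 : ∑ a ∈ H.filter (fun a => Even a), wt H a * (F Q m 0 - D) ≤
        ∑ a ∈ H.filter (fun a => Even a), wt H a * F Q m a := by
      refine Finset.sum_le_sum fun a ha => ?_
      refine mul_le_mul_of_nonneg_left ?_ (hw0.trans (wt_ge H he ho a))
      obtain ⟨haH, j, rfl⟩ := mem_filter.1 ha
      have h4 := F_even Q hQ m j
      have h5 : ((j + j : ℕ) : ℝ) ≤ D := by exact_mod_cast hD _ haH
      rw [← two_mul] at h5 ⊢
      push_cast at h5
      linarith
    have h3' : ∑ a ∈ H.filter (fun a => ¬ Even a), wt H a * (F Q m 1 - D) ≤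
        ∑ a ∈ H.filter (fun a => ¬ Even a), wt H a * F Q m a := by
      refine Finset.sum_le_sum fun a ha => ?_
      refine mul_le_mul_of_nonneg_left ?_ (hw0.trans (wt_ge H he ho a))
      obtain ⟨haH, hodd⟩ := mem_filter.1 ha
      obtain ⟨j, rfl⟩ := Nat.not_even_iff_odd.1 hodd
      have h4 := F_odd Q hQ m j
      have h5 : ((2 * j + 1 : ℕ) : ℝ) ≤ D := by exact_mod_cast hD _ haH
      push_cast at h5
      linarith
    rw [← Finset.sum_mul, wt_even_sum H he] at h3
    rw [← Finset.sum_mul, wt_odd_sum H ho] at h3'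
    linarith
  have h6 : F Q m 0 + F Q m 1 = ∑ n ∈ Ioc (2 * m) (4 * m), (Q n : ℝ) + (Q (4 * m + 1) : ℝ) -
      (Q (2 * m + 1) : ℝ) := by
    rw [← pairs (fun n => (Q n : ℝ)) m]
    unfold F
    rw [← Finset.sum_add_distrib]
    rfl
  have h7 := (q_abs Q hQ (4 * m + 1)).2
  have h8 := (q_abs Q hQ (2 * m + 1)).1
  have h9 := S_split Q (2 * m) (4 * m) (by omega)
  have h10 := S_split Q m (2 * m) (by omega)
  have h11 : ∑ n ∈ Ioc m (2 * m), (Q n : ℝ) = S Q (2 * m) - S Q m := by linarith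
  rw [h11] at h1
  nlinarith

include hQ hrel in
/-- the bound for the partial sums -/
lemma bound (he : 0 < ev H) (ho : 0 < od H) (D : ℕ) (hD : ∀ a ∈ H, a ≤ D) (N : ℕ) :
    S Q N ≤ (2 * (max (ev H) (od H) : ℝ) - 1) / (2 * (max (ev H) (od H) : ℝ) + 1) * N +
      (2 * D + 5) * (Nat.log 2 N + 1) := by
  set M : ℝ := (max (ev H) (od H) : ℝ) with hM
  have he' : (1 : ℝ) ≤ ev H := by exact_mod_cast he
  have hM1 : 1 ≤ M := he'.trans (le_max_left _ _)
  have hβ0 : 0 ≤ (2 * M - 1) / (2 * M + 1) := div_nonneg (by linarith) (by linarith)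
  induction N using Nat.strong_induction_on with
  | _ N ih =>
    have hD0 : (0 : ℝ) ≤ D := Nat.cast_nonneg D
    by_cases hN : N < 4
    · have h1 : S Q N ≤ N := by
        unfold S
        calc ∑ n ∈ Icc 1 N, (Q n : ℝ) ≤ ∑ n ∈ Icc 1 N, (1 : ℝ) :=
              Finset.sum_le_sum fun n _ => (q_abs Q hQ n).1
          _ = N := by simp
      have h2 : (N : ℝ) ≤ 3 := by exact_mod_cast (by omega : N ≤ 3)
      have h3 : (0 : ℝ) ≤ (2 * M - 1) / (2 * M + 1) * N := mul_nonneg hβ0 (Nat.cast_nonneg _)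
      have h4 : (0 : ℝ) ≤ (Nat.log 2 N : ℝ) := Nat.cast_nonneg _
      nlinarith
    · push Not at hN
      obtain ⟨m, r, hr, hNm⟩ : ∃ m r, r < 4 ∧ N = 4 * m + r :=
        ⟨N / 4, N % 4, Nat.mod_lt _ (by norm_num), (Nat.div_add_mod N 4).symm⟩
      have hm1 : 1 ≤ m := by omega
      have h1 := rec_ineq Q hQ H hrel he ho D hD m
      rw [← hM] at h1
      have h2 := ih (2 * m) (by omega)
      have h3 := ih m (by omega)
      have h4 : S Q N ≤ S Q (4 * m) + 3 := by
        rw [S_split Q (4 * m) N (by omega)]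
        have h5 : ∑ n ∈ Ioc (4 * m) N, (Q n : ℝ) ≤ ∑ n ∈ Ioc (4 * m) N, (1 : ℝ) :=
          Finset.sum_le_sum fun n _ => (q_abs Q hQ n).1
        have h6 : ∑ n ∈ Ioc (4 * m) N, (1 : ℝ) ≤ 3 := by
          rw [Finset.sum_const, Nat.card_Ioc, nsmul_eq_mul, mul_one]
          exact_mod_cast (by omega : N - 4 * m ≤ 3)
        linarith
      have hl2 : Nat.log 2 (2 * m) = Nat.log 2 m + 1 := by
        rw [mul_comm, Nat.log_mul_base (by norm_num) (by omega)]
      have hl4 : Nat.log 2 m + 2 ≤ Nat.log 2 N := by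
        have h5 : Nat.log 2 (2 * (2 * m)) = Nat.log 2 (2 * m) + 1 := by
          rw [mul_comm, Nat.log_mul_base (by norm_num) (by omega)]
        have h6 : Nat.log 2 (2 * (2 * m)) ≤ Nat.log 2 N := Nat.log_mono_right (by omega)
        omega
      rw [hl2] at h2
      have hlc : (Nat.log 2 m : ℝ) + 2 ≤ Nat.log 2 N := by exact_mod_cast hl4
      set β : ℝ := (2 * M - 1) / (2 * M + 1) with hβ
      set w : ℝ := 1 / M with hw
      set C : ℝ := 2 * D + 5 with hC
      set l : ℝ := (Nat.log 2 m : ℝ) with hl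
      have hw0 : 0 ≤ w := by positivity
      have hw1 : w ≤ 1 := by rw [hw, div_le_one (by linarith)]; exact hM1
      push_cast at h2 h3
      have hMne : M ≠ 0 := by linarith
      have hMne2 : 2 * M + 1 ≠ 0 := by linarith
      have key : (1 - w) * (β * (2 * m)) + w * (β * m) + (2 - w) * m = β * (4 * m) := by
        rw [hβ, hw]
        field_simp
        ring
      have h5 : S Q (4 * m) ≤ β * (4 * m) + C * (l + 2) + (2 * D + 2) := by
        have h6 : (1 - w) * S Q (2 * m) ≤ (1 - w) * (β * (2 * m) + C * (l + 1 + 1)) :=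
          mul_le_mul_of_nonneg_left h2 (by linarith)
        have h7 : w * S Q m ≤ w * (β * m + C * (l + 1)) := mul_le_mul_of_nonneg_left h3 hw0
        have hC0 : 0 ≤ C := by rw [hC]; linarith
        have h8 : (0 : ℝ) ≤ w * C := mul_nonneg hw0 hC0
        nlinarith
      have h9 : β * (4 * m) ≤ β * N := by
        refine mul_le_mul_of_nonneg_left ?_ hβ0
        exact_mod_cast (by omega : 4 * m ≤ N)
      have hC0 : 0 ≤ C := by rw [hC]; linarith
      have h10 : C * (l + 2) ≤ C * (Nat.log 2 N : ℝ) := mul_le_mul_of_nonneg_left hlc hC0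
      have h11 : C = 2 * D + 5 := rfl
      nlinarith

end abs

lemma ev_pos {H : Finset ℕ} (h : ∃ a ∈ H, Even a) : 0 < ev H := by
  obtain ⟨a, ha, h2⟩ := h
  exact Finset.card_pos.2 ⟨a, mem_filter.2 ⟨ha, h2⟩⟩

lemma od_pos {H : Finset ℕ} (h : ∃ a ∈ H, Odd a) : 0 < od H := by
  obtain ⟨a, ha, h2⟩ := h
  exact Finset.card_pos.2 ⟨a, mem_filter.2 ⟨ha, Nat.not_even_iff_odd.2 h2⟩⟩

lemma S_eq (H : Finset ℕ) (N : ℕ) : S (P H) N =
    ∑ n ∈ Icc 1 N, ∏ h ∈ H, ((-1 : ℝ) ^ ArithmeticFunction.cardFactors (n + h)) := by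
  unfold S
  refine Finset.sum_congr rfl fun n _ => ?_
  unfold P lam
  push_cast
  rfl

lemma S_neg (H : Finset ℕ) (N : ℕ) : S (fun n => -P H n) N = -S (P H) N := by
  unfold S
  rw [← Finset.sum_neg_distrib]
  refine Finset.sum_congr rfl fun n _ => ?_
  push_cast
  rfl

theorem general (H : Finset ℕ) (he : ∃ a ∈ H, Even a) (ho : ∃ a ∈ H, Odd a) (D : ℕ)
    (hD : ∀ a ∈ H, a ≤ D) (N : ℕ) :
    (-((2 * (max (ev H) (od H) : ℝ) - 1) / (2 * (max (ev H) (od H) : ℝ) + 1) * N +
      (2 * D + 5) * (Nat.log 2 N + 1)) ≤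
      ∑ n ∈ Icc 1 N, ∏ h ∈ H, ((-1 : ℝ) ^ ArithmeticFunction.cardFactors (n + h))) ∧
    (Odd H.card →
      ∑ n ∈ Icc 1 N, ∏ h ∈ H, ((-1 : ℝ) ^ ArithmeticFunction.cardFactors (n + h)) ≤
      (2 * (max (ev H) (od H) : ℝ) - 1) / (2 * (max (ev H) (od H) : ℝ) + 1) * N +
      (2 * D + 5) * (Nat.log 2 N + 1)) := by
  have he' := ev_pos he
  have ho' := od_pos ho
  rw [← S_eq]
  have hodd : Odd H.card → S (P H) N ≤
      (2 * (max (ev H) (od H) : ℝ) - 1) / (2 * (max (ev H) (od H) : ℝ) + 1) * N +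
      (2 * D + 5) * (Nat.log 2 N + 1) := by
    intro h
    refine bound (P H) (P_pm H) H (fun n hn => ?_) he' ho' D hD N
    rw [P_rel H n hn, h.neg_one_pow]
    ring
  refine ⟨?_, hodd⟩
  have hneg : S (fun n => -P H n) N ≤
      (2 * (max (ev H) (od H) : ℝ) - 1) / (2 * (max (ev H) (od H) : ℝ) + 1) * N +
      (2 * D + 5) * (Nat.log 2 N + 1) := by
    refine bound (fun n => -P H n) (fun n => ?_) H (fun n hn => ?_) he' ho' D hD N
    · rcases P_pm H n with h | h
      · right; rw [h]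
      · left; rw [h]; norm_num
    · rw [Finset.prod_neg, P_rel H n hn, ← mul_assoc, ← mul_pow]
      norm_num
  rw [S_neg] at hneg
  linarith

/-- the number of even elements of `{0, ..., k - 1}` -/
lemma ev_range (k : ℕ) : ev (range k) = (k + 1) / 2 := by
  unfold ev
  induction k with
  | zero => simp
  | succ k ih =>
    rw [Finset.range_add_one, Finset.filter_insert]
    split_ifs with h
    · rw [Finset.card_insert_of_notMem (by simp), ih]
      obtain ⟨j, rfl⟩ := h
      omega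
    · rw [ih]
      obtain ⟨j, rfl⟩ := Nat.not_even_iff_odd.1 h
      omega

lemma od_range (k : ℕ) : od (range k) = k / 2 := by
  unfold od
  induction k with
  | zero => simp
  | succ k ih =>
    rw [Finset.range_add_one, Finset.filter_insert]
    split_ifs with h
    · rw [ih]
      obtain ⟨j, rfl⟩ := h
      omega
    · rw [Finset.card_insert_of_notMem (by simp), ih]
      obtain ⟨j, rfl⟩ := Nat.not_even_iff_odd.1 h
      omega

/-- **Explicit bounds for Chowla's sums at all scales.** (1) Products of `k ≥ 2` consecutive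
Liouville values: for odd `k` the sum up to `N` has absolute value at most
`k/(k+2) N + (2k+5)(log₂ N + 1)`; for even `k` it is at least
`-(k-1)/(k+1) N - (2k+5)(log₂ N + 1)`. (2) For every finite set `H ⊆ {0, ..., D}` of shifts
containing an even and an odd number, let `M` be the larger of the numbers of even and of odd
elements of `H`; the sum is at least `-(2M-1)/(2M+1) N - (2D+5)(log₂ N + 1)`, and if `|H|` is odd it
is at most `(2M-1)/(2M+1) N + (2D+5)(log₂ N + 1)`. -/
theorem result :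
    (∀ k : ℕ, 2 ≤ k → ∀ N : ℕ,
      (Odd k → |∑ n ∈ Icc 1 N, ∏ i ∈ range k,
          ((-1 : ℝ) ^ ArithmeticFunction.cardFactors (n + i))| ≤
        (k : ℝ) / (k + 2) * N + (2 * k + 5) * (Nat.log 2 N + 1)) ∧
      (Even k → -(((k : ℝ) - 1) / (k + 1) * N + (2 * k + 5) * (Nat.log 2 N + 1)) ≤
        ∑ n ∈ Icc 1 N, ∏ i ∈ range k, ((-1 : ℝ) ^ ArithmeticFunction.cardFactors (n + i)))) ∧
    (∀ (H : Finset ℕ) (D : ℕ), (∃ a ∈ H, Even a) → (∃ a ∈ H, Odd a) → (∀ a ∈ H, a ≤ D) →
      ∀ M : ℕ, M = max (H.filter (fun a => Even a)).card (H.filter (fun a => ¬ Even a)).card →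
      ∀ N : ℕ,
      (-((2 * (M : ℝ) - 1) / (2 * M + 1) * N + (2 * D + 5) * (Nat.log 2 N + 1)) ≤
        ∑ n ∈ Icc 1 N, ∏ h ∈ H, ((-1 : ℝ) ^ ArithmeticFunction.cardFactors (n + h))) ∧
      (Odd H.card →
        ∑ n ∈ Icc 1 N, ∏ h ∈ H, ((-1 : ℝ) ^ ArithmeticFunction.cardFactors (n + h)) ≤
        (2 * (M : ℝ) - 1) / (2 * M + 1) * N + (2 * D + 5) * (Nat.log 2 N + 1))) := by
  constructor
  · intro k hk N
    have h := general (range k) ⟨0, mem_range.2 (by omega), by norm_num⟩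
      ⟨1, mem_range.2 (by omega), by norm_num⟩ k (fun a ha => (mem_range.1 ha).le) N
    rw [ev_range, od_range, card_range] at h
    obtain ⟨h1, h2⟩ := h
    constructor
    · intro hodd
      have h2' := h2 hodd
      obtain ⟨j, rfl⟩ := hodd
      have e1 : (2 * j + 1 + 1) / 2 = j + 1 := by omega
      have e2 : (2 * j + 1) / 2 = j := by omega
      rw [e1, e2] at h1 h2'
      have e3 : (max ((j + 1 : ℕ) : ℝ) ((j : ℕ) : ℝ)) = j + 1 := by
        push_cast
        exact max_eq_left (by linarith)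
      rw [e3] at h1 h2'
      have e4 : (2 * ((j : ℝ) + 1) - 1) / (2 * ((j : ℝ) + 1) + 1) =
          ((2 * j + 1 : ℕ) : ℝ) / (((2 * j + 1 : ℕ) : ℝ) + 2) := by
        push_cast
        congr 1 <;> ring
      rw [e4] at h1 h2'
      rw [abs_le]
      exact ⟨h1, h2'⟩
    · intro heven
      obtain ⟨j, rfl⟩ := heven
      have e1 : (j + j + 1) / 2 = j := by omega
      have e2 : (j + j) / 2 = j := by omega
      rw [e1, e2, max_self] at h1
      have e4 : (2 * (j : ℝ) - 1) / (2 * (j : ℝ) + 1) =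
          (((j + j : ℕ) : ℝ) - 1) / (((j + j : ℕ) : ℝ) + 1) := by
        push_cast
        congr 1 <;> ring
      rw [e4] at h1
      exact h1
  · intro H D he ho hD M hM N
    have h := general H he ho D hD N
    have e : (max (ev H) (od H) : ℝ) = (M : ℝ) := by
      rw [hM]
      push_cast
      rfl
    rw [e] at h
    exact h

end Pool.Agent.Results.MP_a14ce1_nt.ZExplicitBounds
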